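import Mathlib
import Pool.Agent.Q139.Cone.Eq
import Pool.Agent.Results.MP_5e7226_co.ExtremePointsInFlats

set_option autoImplicit false

/-!
# MP_5e7226_co: convex bodies which are a cone on one side of a hyperplane through `o`

Let `K` be a convex body in `ℝ^(d+1)`, `o` an interior point and `H` a hyperplane through `o`. We
assume that on one side of `H` the body is a cone over its section: for a point `p` of `K`, the part
of `K` in the closed halfspace of `H` that contains `p` is the convex hull of `p` and `K ∩ H`. On the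
other side of `H` the body is arbitrary.

1. If the faces of the section `K ∩ H` can be separated from `o` (inside `H`) by `N` hyperplanes of
   `H`, then the faces of `K` can be separated from `o` by `2 N` hyperplanes.
2. If both parts of the conjecture are true for `(K ∩ H, o)`, then both are true for `(K, o)`:
   `2 ^ (d + 1)` hyperplanes suffice, and `2 ^ (d + 1) - 1` suffice unless `K` is a cross-body
   centred at `o`.
3. In `ℝ^3` this is unconditional: both parts of the conjecture are true for every `K` that is a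
   cone on one side of some plane through `o`, and six planes suffice unless the section is a
   quadrilateral whose diagonals meet in `o`.
4. Both parts are true in all dimensions for the bodies obtained by iteration: `K` is a cone on one
   side of `H` over its section, the section is again a body of this kind in `H` (with respect to
   the same point `o`), and so on down to an arbitrary convex body of dimension at most two.

In terms of the polar body `P` of `K` with respect to `o`: `P` has a facet `F` with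
`P ⊆ F + ℝ_+ n`, so `P` is the region `{(x, s) : x ∈ F, 0 ≤ s ≤ h x}` below a concave function on `F`.
-/

namespace Pool.Agent.Results.MP_5e7226_co.OneSidedCones

open Set Topology Module
open scoped InnerProductSpace
open Pool.Agent.H843R3.Had2 Pool.Agent.TH438.Hull

/-- The Euclidean space `ℝ^d`. -/
abbrev Eu (d : ℕ) : Type := EuclideanSpace ℝ (Fin d)

/-- Some `N` hyperplanes `{x | ⟪w i, x⟫ = b i}` are such that every face of `K` (the set of the
points `x` of `K` at which `⟪u, x⟫` is maximal, `u ≠ 0`) is strictly separated from `o` by one of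
them. -/
def SeparatedBy {d : ℕ} (K : Set (Eu d)) (o : Eu d) (N : ℕ) : Prop :=
  ∃ (w : Fin N → Eu d) (b : Fin N → ℝ), ∀ u x₀ : Eu d, u ≠ 0 → x₀ ∈ K →
    (∀ y ∈ K, ⟪u, y⟫_ℝ ≤ ⟪u, x₀⟫_ℝ) →
      ∃ i, ⟪w i, o⟫_ℝ < b i ∧ ∀ x ∈ K, ⟪u, x⟫_ℝ = ⟪u, x₀⟫_ℝ → b i < ⟪w i, x⟫_ℝ

/-- `K` is a cross-body centred at `o`. -/
def IsCrossBody {d : ℕ} (K : Set (Eu d)) (o : Eu d) : Prop :=
  ∃ (v : Fin d → Eu d) (t : Fin d → ℝ), LinearIndependent ℝ v ∧ (∀ i, 0 < t i) ∧
    K = convexHull ℝ (⋃ i, ({o + v i, o - t i • v i} : Set (Eu d)))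

/-- Both parts of the conjecture for the pair `(K, o)`. -/
def BothParts {d : ℕ} (K : Set (Eu d)) (o : Eu d) : Prop :=
  SeparatedBy K o (2 ^ d) ∧ (¬ SeparatedBy K o (2 ^ d - 1) → IsCrossBody K o)

/-- `K` is a convex body and `o` is an interior point of it. -/
def IsBodyAt {d : ℕ} (K : Set (Eu d)) (o : Eu d) : Prop :=
  Convex ℝ K ∧ IsCompact K ∧ o ∈ interior K

/-- The section of `K` by the hyperplane `H = {o + ι x}`, where `ι` is a linear isometry of `ℝ^d`
into `ℝ^(d+1)`; it is taken in the coordinates `x`, in which `o` becomes the origin. -/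
def hyperplaneSection {d : ℕ} (K : Set (Eu (d + 1))) (o : Eu (d + 1))
    (ι : Eu d →ₗᵢ[ℝ] Eu (d + 1)) : Set (Eu d) := {x | o + ι x ∈ K}

/-- On one side of the hyperplane `H = {o + ι x}`, with normal vector `n`, the body `K` is a cone
with apex `p` over the section `K ∩ H`. -/
def OneSidedCone {d : ℕ} (K : Set (Eu (d + 1))) (o : Eu (d + 1))
    (ι : Eu d →ₗᵢ[ℝ] Eu (d + 1)) : Prop :=
  ∃ p ∈ K, ∃ n : Eu (d + 1), (∀ x, ⟪n, ι x⟫_ℝ = 0) ∧ ⟪n, p - o⟫_ℝ < 0 ∧
    ∀ y ∈ K, ⟪n, y - o⟫_ℝ ≤ 0 → y ∈ convexHull ℝ (insert p (K ∩ {z | ⟪n, z - o⟫_ℝ = 0}))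

/-- The bodies obtained by iteration: all convex bodies of dimensions 1 and 2, and all bodies which
are a cone on one side of a hyperplane through `o` over a section of this class. -/
inductive Iterated : (d : ℕ) → Set (Eu d) → Eu d → Prop
  | base {d : ℕ} {K : Set (Eu d)} {o : Eu d} (h1 : 1 ≤ d) (h2 : d ≤ 2) (hK : IsBodyAt K o) :
      Iterated d K o
  | step {d : ℕ} {K : Set (Eu (d + 1))} {o : Eu (d + 1)} (hK : IsBodyAt K o)
      (ι : Eu d →ₗᵢ[ℝ] Eu (d + 1)) (hι : OneSidedCone K o ι)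
      (h : Iterated d (hyperplaneSection K o ι) 0) : Iterated (d + 1) K o

theorem dirs_of_section {d : ℕ} {K : Set (Eu (d + 1))} {o : Eu (d + 1)} (hK : IsBodyAt K o)
    {ι : Eu d →ₗᵢ[ℝ] Eu (d + 1)} {N : ℕ} (hN : 0 < N)
    (h : SeparatedBy (hyperplaneSection K o ι) 0 N) :
    ∃ W : Finset (Eu d), W.card ≤ N ∧ ∀ y ∈ Pol (hyperplaneSection K o ι) 0, ∃ w ∈ W,
      Co (Pol (hyperplaneSection K o ι) 0) y w := by
  obtain ⟨hK1, hK2, hK3⟩ := hK
  have hB1 : Convex ℝ (hyperplaneSection K o ι) := Q139.Cone.sec_convex hK1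
  have hB2 : IsCompact (hyperplaneSection K o ι) := Q139.Cone.sec_compact hK2
  have hB3 : (0 : Eu d) ∈ interior (hyperplaneSection K o ι) := Q139.Cone.sec_int hK3
  have hQ2 : IsCompact (Pol (hyperplaneSection K o ι) 0) := Pol.isCompact hB3
  have hbi : Pol (Pol (hyperplaneSection K o ι) 0) 0 = hyperplaneSection K o ι := by
    ext x
    rw [bipolar hB1 hB2.isClosed (interior_subset hB3), zero_add]
  refine ExtremePointsInFlats.dirs_of_sep (Pol.convex _ _) hQ2 (Pol.zero_mem_interior hB2) hN ?_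
  rw [hbi]
  exact h

theorem one_bound {d : ℕ} {K : Set (Eu (d + 1))} {o : Eu (d + 1)} (hK : IsBodyAt K o)
    {ι : Eu d →ₗᵢ[ℝ] Eu (d + 1)} (hι : OneSidedCone K o ι) {N : ℕ} (hN : 0 < N)
    (h : SeparatedBy (hyperplaneSection K o ι) 0 N) :
    ∃ D : Finset (Eu (d + 1)), D.card ≤ 2 * N ∧ ∀ v ∈ Pol K o, ∃ u ∈ D, Co (Pol K o) v u := by
  obtain ⟨W, hW, h1⟩ := dirs_of_section hK hN h
  obtain ⟨p, hp, n, h2, h3, h4⟩ := hι
  obtain ⟨D, hD, h5⟩ := Q139.Cone.dirs_two (K := K) (o := o) (p := p) (n := n) (ι := ι)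
    ⟨hK.1, hK.2.1, hK.2.2, h2, hp, h3, h4⟩ W h1
  exact ⟨D, hD.trans (by omega), h5⟩

theorem both {d : ℕ} (hd : 1 ≤ d) {K : Set (Eu (d + 1))} {o : Eu (d + 1)} (hK : IsBodyAt K o)
    {ι : Eu d →ₗᵢ[ℝ] Eu (d + 1)} (hι : OneSidedCone K o ι)
    (h : BothParts (hyperplaneSection K o ι) 0) : BothParts K o := by
  classical
  have hpow : 1 < 2 ^ d := Nat.one_lt_two_pow (by omega)
  refine ⟨?_, fun hno => ?_⟩
  · obtain ⟨D, hD, h1⟩ := one_bound hK hι (by positivity) h.1
    exact ExtremePointsInFlats.sep_of_dirs hK.2.1 hK.2.2 ⟨D, by rw [pow_succ]; omega, h1⟩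
  have hno' : ¬ ∃ D : Finset (Eu (d + 1)), D.card ≤ 2 ^ (d + 1) - 1 ∧
      ∀ x ∈ Pol K o, ∃ v ∈ D, Co (Pol K o) x v := fun h =>
    hno (ExtremePointsInFlats.sep_of_dirs hK.2.1 hK.2.2 h)
  -- the section is a cross-body
  have hcross : IsCrossBody (hyperplaneSection K o ι) 0 := by
    refine h.2 fun h1 => hno' ?_
    obtain ⟨D, hD, h2⟩ := one_bound hK hι (by omega) h1
    exact ⟨D, by rw [pow_succ]; omega, h2⟩
  have hB1 : Convex ℝ (hyperplaneSection K o ι) := Q139.Cone.sec_convex hK.1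
  have hB2 : IsCompact (hyperplaneSection K o ι) := Q139.Cone.sec_compact hK.2.1
  have hB3 : (0 : Eu d) ∈ interior (hyperplaneSection K o ι) := Q139.Cone.sec_int hK.2.2
  have hQ2 : IsCompact (Pol (hyperplaneSection K o ι) 0) := Pol.isCompact hB3
  have hbi : Pol (Pol (hyperplaneSection K o ι) 0) 0 = hyperplaneSection K o ι := by
    ext x
    rw [bipolar hB1 hB2.isClosed (interior_subset hB3), zero_add]
  obtain ⟨v, t, hv, ht, h1⟩ := hcross
  obtain ⟨Z, hZ1, hZ2⟩ := hull_of_cross (L := Pol (hyperplaneSection K o ι) 0) (Pol.convex _ _)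
    hQ2.isClosed (interior_subset (Pol.zero_mem_interior hB2)) v t hv ht (by rw [hbi]; exact h1)
  obtain ⟨p, hp, n, h2, h3, h4⟩ := hι
  obtain ⟨X, hX1, hX2⟩ := Q139.Cone.eq_step (K := K) (o := o) (p := p) (n := n) (ι := ι)
    ⟨hK.1, hK.2.1, hK.2.2, h2, hp, h3, h4⟩ Z hZ2 (fun ⟨D, hD, h5⟩ => hno' ⟨D, by
      rw [pow_succ]; omega, h5⟩)
  obtain ⟨v, t, hv, ht, h5⟩ := cross_of_points (by omega) hK.2.1 hK.1 hK.2.2 X
    (by rw [pow_succ]; omega) hX2 hno'
  refine ⟨v, t, hv, ht, ?_⟩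
  rw [h5]
  congr 1
  ext x
  simp only [mem_union, mem_range, mem_iUnion, mem_insert_iff, mem_singleton_iff]
  constructor
  · rintro (⟨i, rfl⟩ | ⟨i, rfl⟩)
    · exact ⟨i, Or.inl rfl⟩
    · exact ⟨i, Or.inr rfl⟩
  · rintro ⟨i, rfl | rfl⟩
    · exact Or.inl ⟨i, rfl⟩
    · exact Or.inr ⟨i, rfl⟩

/-- the conjecture in dimensions 1 and 2 -/
theorem low {d : ℕ} (h1 : 1 ≤ d) (h2 : d ≤ 2) {K : Set (Eu d)} {o : Eu d} (hK : IsBodyAt K o) :
    BothParts K o := by
  have hdim : ExtremePointsInFlats.flatDim (⊤ : AffineSubspace ℝ (Eu d)) = d := by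
    rw [ExtremePointsInFlats.flatDim, AffineSubspace.direction_top]
    simp
  refine ((ExtremePointsInFlats.result d h1 K hK.1 hK.2.1 o hK.2.2 1).2 (fun _ => ⊤)
    (fun x _ => mem_iUnion.2 ⟨0, trivial⟩)).1 (fun _ => ?_) ?_
  · rw [hdim]; exact h2
  · rw [Finset.sum_const, hdim]; simp

/-- **Main theorem.** -/
theorem result :
    (∀ (d : ℕ) (K : Set (Eu (d + 1))) (o : Eu (d + 1)), IsBodyAt K o →
      ∀ ι : Eu d →ₗᵢ[ℝ] Eu (d + 1), OneSidedCone K o ι →
        (∀ N : ℕ, 0 < N → SeparatedBy (hyperplaneSection K o ι) 0 N → SeparatedBy K o (2 * N)) ∧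
        (1 ≤ d → BothParts (hyperplaneSection K o ι) 0 → BothParts K o)) ∧
    (∀ (K : Set (Eu 3)) (o : Eu 3), IsBodyAt K o →
      ∀ ι : Eu 2 →ₗᵢ[ℝ] Eu 3, OneSidedCone K o ι →
        BothParts K o ∧ (¬ SeparatedBy K o 6 → IsCrossBody (hyperplaneSection K o ι) 0)) ∧
    (∀ (d : ℕ) (K : Set (Eu d)) (o : Eu d), Iterated d K o → BothParts K o) := by
  have hlow : ∀ (K : Set (Eu 3)) (o : Eu 3), IsBodyAt K o → ∀ ι : Eu 2 →ₗᵢ[ℝ] Eu 3,
      BothParts (hyperplaneSection K o ι) 0 := fun K o hK ι =>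
    low (by norm_num) le_rfl ⟨Q139.Cone.sec_convex hK.1, Q139.Cone.sec_compact hK.2.1,
      Q139.Cone.sec_int hK.2.2⟩
  refine ⟨?_, ?_, ?_⟩
  · intro d K o hK ι hι
    refine ⟨fun N hN h => ?_, fun hd h => both hd hK hι h⟩
    exact ExtremePointsInFlats.sep_of_dirs hK.2.1 hK.2.2 (one_bound hK hι hN h)
  · intro K o hK ι hι
    refine ⟨both (by norm_num) hK hι (hlow K o hK ι), fun hno => (hlow K o hK ι).2 fun h => ?_⟩
    exact hno (ExtremePointsInFlats.sep_of_dirs hK.2.1 hK.2.2 (one_bound hK hι (by norm_num) h))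
  · intro d K o h
    induction h with
    | base h1 h2 hK => exact low h1 h2 hK
    | @step d K o hK ι hι h ih =>
      rcases Nat.eq_zero_or_pos d with hd | hd
      · exact low (by omega) (by omega) hK
      · exact both hd hK hι ih

end Pool.Agent.Results.MP_5e7226_co.OneSidedCones
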