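import Mathlib
import Pool.Agent.Q139.Cone.HullEdge
import Pool.Agent.Results.MP_5e7226_co.ExtremePointsInFlats
import Pool.Agent.Results.MP_5e7226_co.OneSidedCones

set_option autoImplicit false

/-!
# MP_5e7226_co: convex bodies with an edge along a section through `o`

Let `K` be a convex body in `ℝ^(d+1)`, `o` an interior point and `H` a hyperplane through `o`. We
say that `K` has an edge along `K ∩ H` if every halfspace of `H` that contains `K ∩ H` is the trace
on `H` of at least two different halfspaces which contain `K`; in other words, if no supporting flat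
of the section is contained in only one supporting hyperplane of `K`. For example, the convex hull
of a convex body `B` of `H` containing `o` and any compact convex set `C` of `ℝ^(d+1)` which meets
`H` only in relatively interior points of `B` has an edge along its section (and the section is
`B`), if `o` is an interior point of the hull.

1. If the faces of the section `K ∩ H` can be separated from `o` (inside `H`) by `N` hyperplanes of
   `H`, and `K` has an edge along `K ∩ H`, then the faces of `K` can be separated from `o` by `2 N`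
   hyperplanes; if there are `m` exceptional halfspaces of `H`, by `2 N + m` hyperplanes.
2. If both parts of the conjecture are true for `(K ∩ H, o)`, and `K` has an edge along `K ∩ H`,
   then both are true for `(K, o)`.
3. In `ℝ^3`: both parts are true if `K` has an edge along some plane section through `o`, and six
   planes suffice unless the section is a quadrilateral whose diagonals meet in `o`; if the section
   is not such a quadrilateral, eight planes suffice even if there are two exceptions.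
4. The hulls of `B` and `C` as above have an edge along `B`.
5. Both parts are true, in all dimensions, for all bodies obtained from convex bodies of dimensions
   one and two by iteration of two steps: `K` has an edge along a section of the class, or `K` is a
   cone on one side over a section of the class.
-/

namespace Pool.Agent.Results.MP_5e7226_co.EdgeAlongSection

open Set Topology Module
open scoped InnerProductSpace
open Pool.Agent.H843R3.Had2 Pool.Agent.TH438.Hull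

/-- The Euclidean space `ℝ^d`. -/
abbrev Eu (d : ℕ) : Type := EuclideanSpace ℝ (Fin d)

/-- Some `N` hyperplanes `{x | ⟪w i, x⟫ = b i}` are such that every face of `K` (the set of the
points `x` of `K` at which `⟪u, x⟫` is maximal, `u ≠ 0`) is strictly separated from `o` by one of
them. -/
def SeparatedBy {d : ℕ} (K : Set (Eu d)) (o : Eu d) (N : ℕ) : Prop :=
  ∃ (w : Fin N → Eu d) (b : Fin N → ℝ), ∀ u x₀ : Eu d, u ≠ 0 → x₀ ∈ K →
    (∀ y ∈ K, ⟪u, y⟫_ℝ ≤ ⟪u, x₀⟫_ℝ) →
      ∃ i, ⟪w i, o⟫_ℝ < b i ∧ ∀ x ∈ K, ⟪u, x⟫_ℝ = ⟪u, x₀⟫_ℝ → b i < ⟪w i, x⟫_ℝ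

/-- `K` is a cross-body centred at `o`. -/
def IsCrossBody {d : ℕ} (K : Set (Eu d)) (o : Eu d) : Prop :=
  ∃ (v : Fin d → Eu d) (t : Fin d → ℝ), LinearIndependent ℝ v ∧ (∀ i, 0 < t i) ∧
    K = convexHull ℝ (⋃ i, ({o + v i, o - t i • v i} : Set (Eu d)))

/-- Both parts of the conjecture for the pair `(K, o)`. -/
def BothParts {d : ℕ} (K : Set (Eu d)) (o : Eu d) : Prop :=
  SeparatedBy K o (2 ^ d) ∧ (¬ SeparatedBy K o (2 ^ d - 1) → IsCrossBody K o)

/-- `K` is a convex body and `o` is an interior point of it. -/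
def IsBodyAt {d : ℕ} (K : Set (Eu d)) (o : Eu d) : Prop :=
  Convex ℝ K ∧ IsCompact K ∧ o ∈ interior K

/-- The section of `K` by the hyperplane `H = {o + ι x}`, where `ι` is a linear isometry of `ℝ^d`
into `ℝ^(d+1)`; it is taken in the coordinates `x`, in which `o` becomes the origin. -/
def hyperplaneSection {d : ℕ} (K : Set (Eu (d + 1))) (o : Eu (d + 1))
    (ι : Eu d →ₗᵢ[ℝ] Eu (d + 1)) : Set (Eu d) := {x | o + ι x ∈ K}

/-- `K` has an edge along its section by `H = {o + ι x}`, with exceptions `X`: for every `w` not in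
the finite set `X` such that the halfspace `⟪w, x⟫ ≤ 1` of `H` contains the section, there are two
different halfspaces `⟪v, y - o⟫ ≤ 1` and `⟪v', y - o⟫ ≤ 1` which contain `K` and meet `H` in this
halfspace. -/
def EdgeExcept {d : ℕ} (K : Set (Eu (d + 1))) (o : Eu (d + 1))
    (ι : Eu d →ₗᵢ[ℝ] Eu (d + 1)) (X : Finset (Eu d)) : Prop :=
  ∀ w : Eu d, w ∉ X → (∀ x ∈ hyperplaneSection K o ι, ⟪w, x⟫_ℝ ≤ 1) →
    ∃ v v' : Eu (d + 1), v ≠ v' ∧ (∀ x, ⟪v, ι x⟫_ℝ = ⟪w, x⟫_ℝ) ∧ (∀ x, ⟪v', ι x⟫_ℝ = ⟪w, x⟫_ℝ) ∧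
      (∀ y ∈ K, ⟪v, y - o⟫_ℝ ≤ 1) ∧ (∀ y ∈ K, ⟪v', y - o⟫_ℝ ≤ 1)

/-- `K` has an edge along its section by `H = {o + ι x}`. -/
def EdgeAlong {d : ℕ} (K : Set (Eu (d + 1))) (o : Eu (d + 1))
    (ι : Eu d →ₗᵢ[ℝ] Eu (d + 1)) : Prop := EdgeExcept K o ι ∅

/-- On one side of the hyperplane `H = {o + ι x}`, with normal vector `n`, the body `K` is a cone
with apex `p` over the section `K ∩ H`. -/
def OneSidedCone {d : ℕ} (K : Set (Eu (d + 1))) (o : Eu (d + 1))
    (ι : Eu d →ₗᵢ[ℝ] Eu (d + 1)) : Prop :=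
  ∃ p ∈ K, ∃ n : Eu (d + 1), (∀ x, ⟪n, ι x⟫_ℝ = 0) ∧ ⟪n, p - o⟫_ℝ < 0 ∧
    ∀ y ∈ K, ⟪n, y - o⟫_ℝ ≤ 0 → y ∈ convexHull ℝ (insert p (K ∩ {z | ⟪n, z - o⟫_ℝ = 0}))

/-- The bodies obtained by iteration: all convex bodies of dimensions 1 and 2, and all bodies with
an edge along a section of this class, or which are a cone on one side over a section of this
class. -/
inductive Iterated : (d : ℕ) → Set (Eu d) → Eu d → Prop
  | base {d : ℕ} {K : Set (Eu d)} {o : Eu d} (h1 : 1 ≤ d) (h2 : d ≤ 2) (hK : IsBodyAt K o) :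
      Iterated d K o
  | edge {d : ℕ} {K : Set (Eu (d + 1))} {o : Eu (d + 1)} (hK : IsBodyAt K o)
      (ι : Eu d →ₗᵢ[ℝ] Eu (d + 1)) (hι : EdgeAlong K o ι)
      (h : Iterated d (hyperplaneSection K o ι) 0) : Iterated (d + 1) K o
  | cone {d : ℕ} {K : Set (Eu (d + 1))} {o : Eu (d + 1)} (hK : IsBodyAt K o)
      (ι : Eu d →ₗᵢ[ℝ] Eu (d + 1)) (hι : OneSidedCone K o ι)
      (h : Iterated d (hyperplaneSection K o ι) 0) : Iterated (d + 1) K o

theorem fibres {d : ℕ} {K : Set (Eu (d + 1))} {o : Eu (d + 1)} {ι : Eu d →ₗᵢ[ℝ] Eu (d + 1)}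
    {X : Finset (Eu d)} (hX : EdgeExcept K o ι X) : ∀ w ∈ Pol (Q139.Cone.sec K o ι) 0, w ∉ X →
      ∃ v ∈ Pol K o, ∃ v' ∈ Pol K o, v ≠ v' ∧ Q139.Cone.rs ι v = w ∧ Q139.Cone.rs ι v' = w := by
  intro w hw hwX
  obtain ⟨v, v', hne, h1, h2, h3, h4⟩ := hX w hwX (fun x hx => by
    have := hw x hx
    rwa [sub_zero] at this)
  refine ⟨v, h3, v', h4, hne, ?_, ?_⟩
  · refine ext_inner_right ℝ fun x => ?_
    rw [Q139.Cone.inner_rs]; exact h1 x
  · refine ext_inner_right ℝ fun x => ?_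
    rw [Q139.Cone.inner_rs]; exact h2 x

theorem one_bound {d : ℕ} {K : Set (Eu (d + 1))} {o : Eu (d + 1)} (hK : IsBodyAt K o)
    {ι : Eu d →ₗᵢ[ℝ] Eu (d + 1)} {X : Finset (Eu d)} (hX : EdgeExcept K o ι X) {N : ℕ}
    (hN : 0 < N) (h : SeparatedBy (hyperplaneSection K o ι) 0 N) :
    ∃ D : Finset (Eu (d + 1)), D.card ≤ 2 * N + X.card ∧
      ∀ v ∈ Pol K o, ∃ u ∈ D, Co (Pol K o) v u := by
  obtain ⟨W, hW, h1⟩ := OneSidedCones.dirs_of_section hK hN h
  obtain ⟨n, hn, hp⟩ := Q139.Edge.exists_normal ι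
  obtain ⟨D, hD, h5⟩ := Q139.Edge.dirs_edge (K := K) (o := o) (n := n) (ι := ι)
    ⟨hK.1, hK.2.1, hK.2.2, hp, hn⟩ W h1 X (fibres hX)
  exact ⟨D, hD.trans (by omega), h5⟩

theorem both {d : ℕ} (hd : 1 ≤ d) {K : Set (Eu (d + 1))} {o : Eu (d + 1)} (hK : IsBodyAt K o)
    {ι : Eu d →ₗᵢ[ℝ] Eu (d + 1)} (hι : EdgeAlong K o ι)
    (h : BothParts (hyperplaneSection K o ι) 0) : BothParts K o := by
  classical
  have hpow : 1 < 2 ^ d := Nat.one_lt_two_pow (by omega)
  refine ⟨?_, fun hno => ?_⟩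
  · obtain ⟨D, hD, h1⟩ := one_bound hK hι (by positivity) h.1
    rw [Finset.card_empty] at hD
    exact ExtremePointsInFlats.sep_of_dirs hK.2.1 hK.2.2 ⟨D, by rw [pow_succ]; omega, h1⟩
  have hno' : ¬ ∃ D : Finset (Eu (d + 1)), D.card ≤ 2 ^ (d + 1) - 1 ∧
      ∀ x ∈ Pol K o, ∃ v ∈ D, Co (Pol K o) x v := fun h =>
    hno (ExtremePointsInFlats.sep_of_dirs hK.2.1 hK.2.2 h)
  -- the section is a cross-body
  have hcross : IsCrossBody (hyperplaneSection K o ι) 0 := by
    refine h.2 fun h1 => hno' ?_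
    obtain ⟨D, hD, h2⟩ := one_bound hK hι (by omega) h1
    rw [Finset.card_empty] at hD
    exact ⟨D, by rw [pow_succ]; omega, h2⟩
  have hB1 : Convex ℝ (hyperplaneSection K o ι) := Q139.Cone.sec_convex hK.1
  have hB2 : IsCompact (hyperplaneSection K o ι) := Q139.Cone.sec_compact hK.2.1
  have hB3 : (0 : Eu d) ∈ interior (hyperplaneSection K o ι) := Q139.Cone.sec_int hK.2.2
  have hQ2 : IsCompact (Pol (hyperplaneSection K o ι) 0) := Pol.isCompact hB3
  have hbi : Pol (Pol (hyperplaneSection K o ι) 0) 0 = hyperplaneSection K o ι := by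
    ext x
    rw [bipolar hB1 hB2.isClosed (interior_subset hB3), zero_add]
  obtain ⟨v, t, hv, ht, h1⟩ := hcross
  obtain ⟨Z, hZ1, hZ2⟩ := hull_of_cross (L := Pol (hyperplaneSection K o ι) 0) (Pol.convex _ _)
    hQ2.isClosed (interior_subset (Pol.zero_mem_interior hB2)) v t hv ht (by rw [hbi]; exact h1)
  obtain ⟨n, hn, hp⟩ := Q139.Edge.exists_normal ι
  obtain ⟨X, hX1, hX2⟩ := Q139.Edge.eq_edge (K := K) (o := o) (n := n) (ι := ι)
    ⟨hK.1, hK.2.1, hK.2.2, hp, hn⟩ (fun w hw => fibres hι w hw (Finset.notMem_empty w)) Z hZ2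
    (fun ⟨D, hD, h5⟩ => hno' ⟨D, by rw [pow_succ]; omega, h5⟩)
  obtain ⟨v, t, hv, ht, h5⟩ := cross_of_points (by omega) hK.2.1 hK.1 hK.2.2 X
    (by rw [pow_succ]; omega) hX2 hno'
  refine ⟨v, t, hv, ht, ?_⟩
  rw [h5]
  congr 1
  ext x
  simp only [mem_union, mem_range, mem_iUnion, mem_insert_iff, mem_singleton_iff]
  constructor
  · rintro (⟨i, rfl⟩ | ⟨i, rfl⟩)
    · exact ⟨i, Or.inl rfl⟩
    · exact ⟨i, Or.inr rfl⟩
  · rintro ⟨i, rfl | rfl⟩
    · exact Or.inl ⟨i, rfl⟩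
    · exact Or.inr ⟨i, rfl⟩

/-- the conjecture in dimensions 1 and 2 -/
theorem low {d : ℕ} (h1 : 1 ≤ d) (h2 : d ≤ 2) {K : Set (Eu d)} {o : Eu d} (hK : IsBodyAt K o) :
    BothParts K o := OneSidedCones.low h1 h2 hK

theorem low_section {K : Set (Eu 3)} {o : Eu 3} (hK : IsBodyAt K o) (ι : Eu 2 →ₗᵢ[ℝ] Eu 3) :
    BothParts (hyperplaneSection K o ι) 0 :=
  low (by norm_num) le_rfl ⟨Q139.Cone.sec_convex hK.1, Q139.Cone.sec_compact hK.2.1,
    Q139.Cone.sec_int hK.2.2⟩

/-- Part 1: the bound. -/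
def Bound : Prop :=
  ∀ (d : ℕ) (K : Set (Eu (d + 1))) (o : Eu (d + 1)), IsBodyAt K o →
    ∀ (ι : Eu d →ₗᵢ[ℝ] Eu (d + 1)) (X : Finset (Eu d)) (N : ℕ), EdgeExcept K o ι X → 0 < N →
      SeparatedBy (hyperplaneSection K o ι) 0 N → SeparatedBy K o (2 * N + X.card)

/-- Part 2: both parts of the conjecture pass from the section to the body. -/
def Transfer : Prop :=
  ∀ (d : ℕ) (K : Set (Eu (d + 1))) (o : Eu (d + 1)), IsBodyAt K o →
    ∀ ι : Eu d →ₗᵢ[ℝ] Eu (d + 1), 1 ≤ d → EdgeAlong K o ι →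
      BothParts (hyperplaneSection K o ι) 0 → BothParts K o

/-- Part 3: dimension three. -/
def Space : Prop :=
  ∀ (K : Set (Eu 3)) (o : Eu 3), IsBodyAt K o → ∀ ι : Eu 2 →ₗᵢ[ℝ] Eu 3,
    (EdgeAlong K o ι →
      BothParts K o ∧ (¬ SeparatedBy K o 6 → IsCrossBody (hyperplaneSection K o ι) 0)) ∧
    (∀ X : Finset (Eu 2), EdgeExcept K o ι X → X.card ≤ 2 →
      SeparatedBy K o 8 ∨ IsCrossBody (hyperplaneSection K o ι) 0)

/-- The convex hull of the convex set `B` of the hyperplane `{o + ι x}` and of `C`. -/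
def hullOf {d : ℕ} (B : Set (Eu d)) (C : Set (Eu (d + 1))) (o : Eu (d + 1))
    (ι : Eu d →ₗᵢ[ℝ] Eu (d + 1)) : Set (Eu (d + 1)) :=
  convexHull ℝ ((fun x => o + ι x) '' B ∪ C)

/-- Part 4: the hulls of `B` and `C`. -/
def Hulls : Prop :=
  ∀ (d : ℕ) (B : Set (Eu d)) (C : Set (Eu (d + 1))) (o : Eu (d + 1))
    (ι : Eu d →ₗᵢ[ℝ] Eu (d + 1)), Convex ℝ B → B.Nonempty → Convex ℝ C → IsCompact C →
    (∀ x, o + ι x ∈ C → x ∈ interior B) → o ∈ interior (hullOf B C o ι) →
      hyperplaneSection (hullOf B C o ι) o ι = B ∧ EdgeAlong (hullOf B C o ι) o ι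

/-- Part 5: the iterated class. -/
def IteratedBodies : Prop :=
  ∀ (d : ℕ) (K : Set (Eu d)) (o : Eu d), Iterated d K o → BothParts K o

/-- **Main theorem.** -/
theorem result : Bound ∧ Transfer ∧ Space ∧ Hulls ∧ IteratedBodies := by
  refine ⟨?_, ?_, ?_, ?_, ?_⟩
  · intro d K o hK ι X N hX hN h
    exact ExtremePointsInFlats.sep_of_dirs hK.2.1 hK.2.2 (one_bound hK hX hN h)
  · intro d K o hK ι hd hι h
    exact both hd hK hι h
  · intro K o hK ι
    refine ⟨fun hι => ⟨both (by norm_num) hK hι (low_section hK ι), fun hno =>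
      (low_section hK ι).2 fun h => hno ?_⟩, fun X hX hcard => ?_⟩
    · exact ExtremePointsInFlats.sep_of_dirs hK.2.1 hK.2.2 (one_bound hK hι (by norm_num) h)
    · by_cases h : SeparatedBy (hyperplaneSection K o ι) 0 (2 ^ 2 - 1)
      · left
        obtain ⟨D, hD, h1⟩ := one_bound hK hX (by norm_num) h
        exact ExtremePointsInFlats.sep_of_dirs hK.2.1 hK.2.2 ⟨D, by omega, h1⟩
      · exact Or.inr ((low_section hK ι).2 h)
  · intro d B C o ι hB hB0 hC hCc hBC ho
    obtain ⟨n, hn, hp⟩ := Q139.Edge.exists_normal ι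
    have h1 := Q139.Edge.section_hull hn hp hB hB0 hC hBC
    refine ⟨h1, fun w _ hw => ?_⟩
    have hw' : ∀ x ∈ B, ⟪w, x⟫_ℝ ≤ 1 := fun x hx => hw x (by
      show x ∈ Q139.Cone.sec (Q139.Edge.hull B C o ι) o ι
      rw [h1]; exact hx)
    exact Q139.Edge.edge_hull hn hp hC hCc (Q139.Edge.C_nonempty hn hp ho hB) hBC hw'
  · intro d K o h
    induction h with
    | base h1 h2 hK => exact low h1 h2 hK
    | @edge d K o hK ι hι h ih =>
      rcases Nat.eq_zero_or_pos d with hd | hd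
      · exact low (by omega) (by omega) hK
      · exact both hd hK hι ih
    | @cone d K o hK ι hι h ih =>
      rcases Nat.eq_zero_or_pos d with hd | hd
      · exact low (by omega) (by omega) hK
      · exact (OneSidedCones.result.1 d K o hK ι hι).2 hd ih

end Pool.Agent.Results.MP_5e7226_co.EdgeAlongSection
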