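import Pool.Agent.Q123.PT.Tree

/-!
Separation of the faces of the polytopes `conv {(e i - e j) / c i j}` of a quasi-metric `c` on
`n + 1` points (the unit balls of Lipschitz-free spaces, polar to the polytopes
`{x : x i - x j ≤ c i j}`).  The conjectured bound `2 ^ n`, together with the description of the
case of equality, holds whenever every set of at least two points contains a point which is not
between two other points of the set; this includes all finite subsets of strictly convex spaces.
-/

set_option autoImplicit false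

open Finset Q123.PT

namespace Pool.Agent.Results.MP_5e7226_co.KantorovichRubinstein

theorem result (n : ℕ) (hn : 1 ≤ n) (c : Fin (n + 1) → Fin (n + 1) → ℝ)
    (hc : (∀ i j, i ≠ j → 0 < c i j) ∧
      ∀ i j k, i ≠ j → j ≠ k → i ≠ k → c i k ≤ c i j + c j k) :
    -- the polytope and the polar polytope are convex bodies, with the origin inside
    ((Convex ℝ (KR c) ∧ IsCompact (KR c) ∧ 0 ∈ interior (KR c)) ∧
      (Convex ℝ (body c) ∧ IsCompact (body c) ∧ 0 ∈ interior (body c))) ∧
    -- every set of points contains a point which is not between two others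
    ((∀ M : Finset (Fin (n + 1)), 2 ≤ M.card → ∃ p ∈ M, ∀ i ∈ M, ∀ j ∈ M,
        i ≠ p → j ≠ p → i ≠ j → c i j < c i p + c p j) →
      SepLE (KR c) 0 (2 ^ n) ∧ IllumLE (body c) (2 ^ n) ∧
      (¬ SepLE (KR c) 0 (2 ^ n - 1) →
        ∃ v : Fin n → EuclideanSpace ℝ (Fin n), ∃ t : Fin n → ℝ,
          LinearIndependent ℝ v ∧ (∀ i, 0 < t i) ∧
            KR c = convexHull ℝ (⋃ i, ({0 + v i, 0 - t i • v i} :
              Set (EuclideanSpace ℝ (Fin n)))))) ∧
    -- every set of points has two parts with a gap between them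
    ((∀ M : Finset (Fin (n + 1)), 2 ≤ M.card → ∃ S ⊆ M, S.Nonempty ∧ (M \ S).Nonempty ∧
        ∀ i ∈ S, ∀ i' ∈ S, ∀ j ∈ M \ S, ∀ j' ∈ M \ S,
          (if i = i' then 0 else c i i') + (if j' = j then 0 else c j' j) < c i j + c j' i') →
      SepLE (KR c) 0 (2 ^ n) ∧ IllumLE (body c) (2 ^ n)) ∧
    -- strict triangle inequalities
    ((∀ i j k, i ≠ j → j ≠ k → i ≠ k → c i k < c i j + c j k) →
      SepLE (KR c) 0 ((n + 1).choose ((n + 1) / 2)) ∧
        IllumLE (body c) ((n + 1).choose ((n + 1) / 2))) ∧
    -- finite sets in strictly convex spaces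
    (∀ (E : Type) [NormedAddCommGroup E] [NormedSpace ℝ E] [StrictConvexSpace ℝ E]
        (x : Fin (n + 1) → E), (∀ i j, i ≠ j → c i j = dist (x i) (x j)) →
      SepLE (KR c) 0 (2 ^ n) ∧ IllumLE (body c) (2 ^ n) ∧
      (¬ SepLE (KR c) 0 (2 ^ n - 1) →
        ∃ v : Fin n → EuclideanSpace ℝ (Fin n), ∃ t : Fin n → ℝ,
          LinearIndependent ℝ v ∧ (∀ i, 0 < t i) ∧
            KR c = convexHull ℝ (⋃ i, ({0 + v i, 0 - t i • v i} :
              Set (EuclideanSpace ℝ (Fin n)))))) := by
  have hQM : QM c := hc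
  have main : Elim c → SepLE (KR c) 0 (2 ^ n) ∧ IllumLE (body c) (2 ^ n) ∧
      (¬ SepLE (KR c) 0 (2 ^ n - 1) → Cross (KR c)) := by
    intro hE
    obtain ⟨h1, h2⟩ := elim_served hQM hE
    exact ⟨sep_of_served hQM h1, illum_of_served h1, fun h => h2 fun h3 => h (sep_of_served hQM h3)⟩
  refine ⟨⟨⟨convex_convexHull ℝ _, kr_compact c, kr_interior hn hQM⟩,
    ⟨body_convex c, body_compact c, zero_mem_interior hQM⟩⟩, main, fun hS => ?_, fun hs => ?_, ?_⟩
  · have h1 := split_served hS
    exact ⟨sep_of_served hQM h1, illum_of_served h1⟩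
  · have h1 := strict_case hQM hs
    exact ⟨sep_of_served hQM h1, illum_of_served h1⟩
  · intro E _ _ _ x hx
    apply main
    have hinj : Function.Injective x := by
      intro i j hij
      by_contra hne
      have h1 := hc.1 i j hne
      rw [hx i j hne, hij, dist_self] at h1
      exact lt_irrefl _ h1
    intro M hM
    obtain ⟨p, hp, h⟩ := elim_strictConvex hinj M hM
    refine ⟨p, hp, fun i hi j hj hip hjp hij => ?_⟩
    rw [hx i j hij, hx i p hip, hx p j hjp.symm]
    exact h i hi j hj hip hjp hij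

end Pool.Agent.Results.MP_5e7226_co.KantorovichRubinstein
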