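import Mathlib
import Pool.Agent.Q139.Sec.Space
import Pool.Agent.Q139.Sec.Points
import Pool.Agent.H73R3.Hull
import Pool.Agent.Results.MP_5e7226_co.ExtremePointsInFlats
import Pool.Agent.Results.MP_5e7226_co.OneSidedCones

set_option autoImplicit false

/-!
# MP_5e7226_co: convex bodies which have a section that is also a shadow

A section of a convex body `P` by a plane `A` is a shadow of `P` if it is the image of `P` under the
projection to `A` in some direction `u` not parallel to `A`; that is, if for every point of `P` the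
line through this point in the direction `u` meets `A` in a point of `P`. Bodies which are symmetric
about a plane have this property, and so have all hulls `conv (C ∪ C')` of a convex body `C` and its
projection `C'` to a plane. No symmetry is assumed.

1. If a section of the convex body `P` of `ℝ^3` is also a shadow of `P`, then `P` is covered by eight
   translates of its interior, and its boundary is illuminated by eight exterior points.
2. Let `K` be a convex body of `ℝ^3`, `o` an interior point of `K` and `H` a plane through `o`. If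
   `K` is contained in a cylinder over `K ∩ H` (that is, `K ∩ H` is also the shadow of `K` in the
   direction of this cylinder), then the faces of `K` can be separated from `o` by eight planes.
3. The same is true if `K` is contained in a cone over `K ∩ H` with an apex outside `H` (that is, if
   `K ∩ H` is the shadow of `K` with respect to a light source in a point which is not in `H`).
4. For every compact set `C` of `ℝ^3` the hull of `C` and of its projection to a plane, in a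
   direction not parallel to the plane, is covered by eight translates of its interior, if it has
   interior points, and its boundary is illuminated by eight exterior points.
5. In all dimensions: if `K` is contained in a cylinder, or in a cone with an apex outside `H`, over
   `K ∩ H`, and if the faces of `K ∩ H` can be separated from `o` by `N` hyperplanes of `H`, then the
   faces of `K` can be separated from `o` by `3 N` hyperplanes.
-/

namespace Pool.Agent.Results.MP_5e7226_co.SectionIsShadow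

open Set Topology Module
open scoped InnerProductSpace
open Pool.Agent.H843R3.Had2 Pool.Agent.TH438.Hull

/-- The Euclidean space `ℝ^d`. -/
abbrev Eu (d : ℕ) : Type := EuclideanSpace ℝ (Fin d)

/-- Some `N` hyperplanes `{x | ⟪w i, x⟫ = b i}` are such that every face of `K` (the set of the
points `x` of `K` at which `⟪u, x⟫` is maximal, `u ≠ 0`) is strictly separated from `o` by one of
them. -/
def SeparatedBy {d : ℕ} (K : Set (Eu d)) (o : Eu d) (N : ℕ) : Prop :=
  ∃ (w : Fin N → Eu d) (b : Fin N → ℝ), ∀ u x₀ : Eu d, u ≠ 0 → x₀ ∈ K →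
    (∀ y ∈ K, ⟪u, y⟫_ℝ ≤ ⟪u, x₀⟫_ℝ) →
      ∃ i, ⟪w i, o⟫_ℝ < b i ∧ ∀ x ∈ K, ⟪u, x⟫_ℝ = ⟪u, x₀⟫_ℝ → b i < ⟪w i, x⟫_ℝ

/-- `K` is a convex body and `o` is an interior point of it. -/
def IsBodyAt {d : ℕ} (K : Set (Eu d)) (o : Eu d) : Prop :=
  Convex ℝ K ∧ IsCompact K ∧ o ∈ interior K

/-- At most `N` translates of the interior of `P` cover `P`. -/
def CoveredBy {d : ℕ} (P : Set (Eu d)) (N : ℕ) : Prop :=
  ∃ T : Finset (Eu d), T.card ≤ N ∧ P ⊆ ⋃ t ∈ T, (fun x => t + x) '' interior P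

/-- At most `N` exterior points illuminate the boundary of `P`. -/
def IlluminatedBy {d : ℕ} (P : Set (Eu d)) (N : ℕ) : Prop :=
  ∃ A : Finset (Eu d), A.card ≤ N ∧ ∀ x ∈ frontier P, ∃ p ∈ A, p ∉ P ∧
    ∃ s : ℝ, 1 < s ∧ p + s • (x - p) ∈ interior P

/-- The section of `K` by the hyperplane `H = {o + ι x}`, where `ι` is a linear isometry of `ℝ^d`
into `ℝ^(d+1)`; it is taken in the coordinates `x`, in which `o` becomes the origin. -/
def hyperplaneSection {d : ℕ} (K : Set (Eu (d + 1))) (o : Eu (d + 1))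
    (ι : Eu d →ₗᵢ[ℝ] Eu (d + 1)) : Set (Eu d) := {x | o + ι x ∈ K}

/-- The section of `P` by the plane `{x | ⟪a, x⟫ = b}` is its shadow in the direction `u`, which is
not parallel to the plane. -/
def ShadowSection (P : Set (Eu 3)) (a u : Eu 3) (b : ℝ) : Prop :=
  ⟪a, u⟫_ℝ ≠ 0 ∧ ∀ x ∈ P, ∃ t : ℝ, x + t • u ∈ P ∧ ⟪a, x + t • u⟫_ℝ = b

/-- `K` is contained in a cylinder over its section by the hyperplane `{o + ι x}`; the direction `q`
of the cylinder is not parallel to the hyperplane. -/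
def InCylinder {d : ℕ} (K : Set (Eu (d + 1))) (o : Eu (d + 1)) (ι : Eu d →ₗᵢ[ℝ] Eu (d + 1)) :
    Prop :=
  ∃ q : Eu (d + 1), (∀ x, ι x ≠ q) ∧
    ∀ y ∈ K, ∃ x ∈ hyperplaneSection K o ι, ∃ t : ℝ, y = o + ι x + t • q

/-- `K` is contained in a cone over its section by the hyperplane `{o + ι x}`; the apex `p` is not
in the hyperplane. -/
def InCone {d : ℕ} (K : Set (Eu (d + 1))) (o : Eu (d + 1)) (ι : Eu d →ₗᵢ[ℝ] Eu (d + 1)) : Prop :=
  ∃ p : Eu (d + 1), (∀ x, o + ι x ≠ p) ∧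
    ∀ y ∈ K, ∃ x ∈ hyperplaneSection K o ι, ∃ s : ℝ, 0 ≤ s ∧ y = p + s • (o + ι x - p)

/-- Part 1: bodies with a section that is a shadow. -/
def Bodies : Prop :=
  ∀ P : Set (Eu 3), Convex ℝ P → IsCompact P → (interior P).Nonempty →
    ∀ (a u : Eu 3) (b : ℝ), ShadowSection P a u b → CoveredBy P 8 ∧ IlluminatedBy P 8

/-- Parts 2 and 3: bodies in a cylinder or in a cone over a section. -/
def Space : Prop :=
  ∀ (K : Set (Eu 3)) (o : Eu 3), IsBodyAt K o → ∀ ι : Eu 2 →ₗᵢ[ℝ] Eu 3,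
    InCylinder K o ι ∨ InCone K o ι → SeparatedBy K o 8

/-- The hull of `C` and of its projection to the plane `{x | ⟪a, x⟫ = b}` in the direction `u`. -/
def hullOf (C : Set (Eu 3)) (a u : Eu 3) (b : ℝ) : Set (Eu 3) :=
  convexHull ℝ (C ∪ (fun x => x + ((b - ⟪a, x⟫_ℝ) / ⟪a, u⟫_ℝ) • u) '' C)

/-- Part 4: hulls. -/
def Hulls : Prop :=
  ∀ (C : Set (Eu 3)) (a u : Eu 3) (b : ℝ), IsCompact C → ⟪a, u⟫_ℝ ≠ 0 →
    (interior (hullOf C a u b)).Nonempty →
      CoveredBy (hullOf C a u b) 8 ∧ IlluminatedBy (hullOf C a u b) 8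

/-- Part 5: all dimensions. -/
def AllDimensions : Prop :=
  ∀ (d : ℕ) (K : Set (Eu (d + 1))) (o : Eu (d + 1)), IsBodyAt K o →
    ∀ (ι : Eu d →ₗᵢ[ℝ] Eu (d + 1)) (N : ℕ), 0 < N → InCylinder K o ι ∨ InCone K o ι →
      SeparatedBy (hyperplaneSection K o ι) 0 N → SeparatedBy K o (3 * N)

theorem cover {P : Set (Eu 3)} (hP : Convex ℝ P) (hPc : IsCompact P) (h : Q139.Sec.Ill P 8) :
    CoveredBy P 8 ∧ IlluminatedBy P 8 := by
  refine ⟨?_, Q139.Sec.points hP hPc h⟩
  obtain ⟨D, hD, h1⟩ := h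
  obtain ⟨T, hT, h2⟩ := Pool.Agent.W677.Shadow.cover_of_dirs hP hPc D h1
  exact ⟨T, hT.trans hD, h2⟩

theorem bodies : Bodies := by
  intro P hP hPc hi a u b ⟨hau, h⟩
  have hu : u ≠ 0 := by
    rintro rfl
    exact hau (inner_zero_right _)
  obtain ⟨ι, hι⟩ := Q139.Sec.exists_plane (d := 2) hu
  exact cover hP hPc (Q139.Sec.eight hP hPc hi hu hι hau h)

/-- the dual property of the polar body -/
def Dual {d : ℕ} (K : Set (Eu (d + 1))) (o : Eu (d + 1)) (ι : Eu d →ₗᵢ[ℝ] Eu (d + 1)) : Prop :=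
  ∃ (n a : Eu (d + 1)) (b : ℝ), n ≠ 0 ∧ (∀ x, ⟪n, ι x⟫_ℝ = 0) ∧ ⟪a, n⟫_ℝ ≠ 0 ∧
    ∀ x ∈ Pol K o, ∃ t : ℝ, x + t • n ∈ Pol K o ∧ ⟪a, x + t • n⟫_ℝ = b

theorem normal_ne {d : ℕ} {ι : Eu d →ₗᵢ[ℝ] Eu (d + 1)} {n q : Eu (d + 1)} (hn : n ≠ 0)
    (hp : ∀ x, ⟪n, ι x⟫_ℝ = 0) (hq : ∀ x, ι x ≠ q) : ⟪q, n⟫_ℝ ≠ 0 := by
  intro h0
  set R := LinearMap.range ι.toLinearMap with hR
  obtain ⟨y, hy, z, hz, hyz⟩ := R.exists_add_mem_mem_orthogonal q
  obtain ⟨c, hc⟩ := Q139.Sec.perp_line hn hp (b := z) (fun x => by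
    rw [Submodule.mem_orthogonal'] at hz
    exact hz _ ⟨x, rfl⟩)
  obtain ⟨x, hx⟩ := hy
  have hx' : ι x = y := hx
  have h1 : ⟪y, n⟫_ℝ = 0 := by rw [← hx', real_inner_comm]; exact hp x
  rw [hyz, inner_add_left, h1, zero_add, hc, real_inner_smul_left] at h0
  have h2 : c = 0 := (mul_eq_zero.1 h0).resolve_right (fun h => hn (inner_self_eq_zero.1 h))
  refine hq x ?_
  rw [hyz, hc, h2, zero_smul, add_zero, hx']

theorem InCylinder.dual {d : ℕ} {K : Set (Eu (d + 1))} {o : Eu (d + 1)}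
    {ι : Eu d →ₗᵢ[ℝ] Eu (d + 1)} (h : InCylinder K o ι) : Dual K o ι := by
  obtain ⟨q, hq, h⟩ := h
  obtain ⟨n, hn, hp⟩ := Q139.Edge.exists_normal ι
  have hqn := normal_ne hn hp hq
  refine ⟨n, q, 0, hn, hp, hqn, fun v hv => ⟨-⟪q, v⟫_ℝ / ⟪q, n⟫_ℝ, ?_, ?_⟩⟩
  · have h1 : ⟪v + (-⟪q, v⟫_ℝ / ⟪q, n⟫_ℝ) • n, q⟫_ℝ = 0 := by
      have e1 : ⟪v, q⟫_ℝ = ⟪q, v⟫_ℝ := real_inner_comm _ _
      have e2 : ⟪n, q⟫_ℝ = ⟪q, n⟫_ℝ := real_inner_comm _ _
      rw [inner_add_left, real_inner_smul_left, e1, e2]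
      field_simp
      ring
    intro y hy
    obtain ⟨x, hx, t, rfl⟩ := h y hy
    have e : o + ι x + t • q - o = ι x + t • q := by abel
    rw [e, inner_add_right, real_inner_smul_right, h1, mul_zero, add_zero, inner_add_left,
      real_inner_smul_left, hp, mul_zero, add_zero]
    have := hv _ hx
    rwa [add_sub_cancel_left] at this
  · rw [inner_add_right, real_inner_smul_right]
    field_simp
    ring

theorem InCone.dual {d : ℕ} {K : Set (Eu (d + 1))} {o : Eu (d + 1)}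
    {ι : Eu d →ₗᵢ[ℝ] Eu (d + 1)} (h : InCone K o ι) : Dual K o ι := by
  obtain ⟨p, hpH, h⟩ := h
  obtain ⟨n, hn, hp⟩ := Q139.Edge.exists_normal ι
  have hqn : ⟪p - o, n⟫_ℝ ≠ 0 := normal_ne hn hp (fun x hx => hpH x (by rw [hx]; abel))
  refine ⟨n, p - o, 1, hn, hp, hqn, fun v hv => ⟨(1 - ⟪p - o, v⟫_ℝ) / ⟪p - o, n⟫_ℝ, ?_, ?_⟩⟩
  · have h1 : ⟪v + ((1 - ⟪p - o, v⟫_ℝ) / ⟪p - o, n⟫_ℝ) • n, p - o⟫_ℝ = 1 := by
      have e1 : ⟪v, p - o⟫_ℝ = ⟪p - o, v⟫_ℝ := real_inner_comm _ _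
      have e2 : ⟪n, p - o⟫_ℝ = ⟪p - o, n⟫_ℝ := real_inner_comm _ _
      rw [inner_add_left, real_inner_smul_left, e1, e2]
      field_simp
      ring
    intro y hy
    obtain ⟨x, hx, s, hs, rfl⟩ := h y hy
    have e : p + s • (o + ι x - p) - o = (1 - s) • (p - o) + s • ι x := by module
    rw [e, inner_add_right, real_inner_smul_right, h1, real_inner_smul_right, inner_add_left,
      real_inner_smul_left, hp, mul_zero, add_zero]
    have := hv _ hx
    rw [add_sub_cancel_left] at this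
    have := mul_le_mul_of_nonneg_left this hs
    linarith
  · rw [inner_add_right, real_inner_smul_right]
    field_simp
    ring

theorem dual_of {d : ℕ} {K : Set (Eu (d + 1))} {o : Eu (d + 1)} {ι : Eu d →ₗᵢ[ℝ] Eu (d + 1)}
    (h : InCylinder K o ι ∨ InCone K o ι) : Dual K o ι := by
  rcases h with h | h
  · exact h.dual
  · exact h.dual

theorem space : Space := by
  intro K o hK ι h
  obtain ⟨n, a, b, hn, hp, ha, h1⟩ := dual_of h
  obtain ⟨D, hD, h2⟩ := Q139.Sec.eight (Pol.convex K o) (Pol.isCompact hK.2.2)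
    ⟨0, Pol.zero_mem_interior hK.2.1⟩ hn hp ha h1
  exact ExtremePointsInFlats.sep_of_dirs hK.2.1 hK.2.2 ⟨D, hD, h2⟩

theorem allDimensions : AllDimensions := by
  intro d K o hK ι N hN h hs
  obtain ⟨n, a, b, hn, hp, ha, h1⟩ := dual_of h
  obtain ⟨W, hW, hW1⟩ := OneSidedCones.dirs_of_section hK hN hs
  have hsurj : Q139.Cone.rs ι '' Pol K o = Pol (hyperplaneSection K o ι) 0 :=
    Q139.Edge.rs_surj (n := n) ⟨hK.1, hK.2.1, hK.2.2, hp, hn⟩
  obtain ⟨D, hD, h2⟩ := Q139.Sec.triple (Pol.convex K o) (Pol.isCompact hK.2.2)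
    ⟨0, Pol.zero_mem_interior hK.2.1⟩ hn hp ha h1 (N := N) (by
      rw [hsurj]
      exact ⟨W, hW, hW1⟩)
  exact ExtremePointsInFlats.sep_of_dirs hK.2.1 hK.2.2 ⟨D, hD, h2⟩

theorem hulls : Hulls := by
  intro C a u b hC hau hi
  obtain ⟨f, hf⟩ : ∃ f : Eu 3 → Eu 3, f = fun x => x + ((b - ⟪a, x⟫_ℝ) / ⟪a, u⟫_ℝ) • u :=
    ⟨_, rfl⟩
  have hP : hullOf C a u b = convexHull ℝ (C ∪ f '' C) := by rw [hullOf, hf]
  rw [hP] at hi ⊢
  have hfc : Continuous f := by
    rw [hf]
    fun_prop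
  have haf : ∀ x, ⟪a, f x⟫_ℝ = b := by
    intro x
    rw [hf]
    simp only
    rw [inner_add_right, real_inner_smul_right]
    field_simp
    ring
  have hff : ∀ x, ⟪a, x⟫_ℝ = b → f x = x := by
    intro x hx
    rw [hf]
    simp only
    rw [hx, sub_self, zero_div, zero_smul, add_zero]
  have hcomb : ∀ x y : Eu 3, ∀ r s : ℝ, r + s = 1 → f (r • x + s • y) = r • f x + s • f y := by
    intro x y r s hrs
    obtain rfl : s = 1 - r := by linarith
    rw [hf]
    simp only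
    rw [inner_add_right, real_inner_smul_right, real_inner_smul_right]
    have e : (b - (r * ⟪a, x⟫_ℝ + (1 - r) * ⟪a, y⟫_ℝ)) / ⟪a, u⟫_ℝ =
        r * ((b - ⟪a, x⟫_ℝ) / ⟪a, u⟫_ℝ) + (1 - r) * ((b - ⟪a, y⟫_ℝ) / ⟪a, u⟫_ℝ) := by
      field_simp
      ring
    rw [e]; module
  have hcomp : IsCompact (convexHull ℝ (C ∪ f '' C)) :=
    Pool.Agent.H73R3.compact_hull (hC.union (hC.image hfc))
  have hmap : convexHull ℝ (C ∪ f '' C) ⊆ f ⁻¹' convexHull ℝ (C ∪ f '' C) := by
    refine convexHull_min ?_ ?_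
    · rintro x (hx | ⟨y, hy, rfl⟩)
      · exact subset_convexHull ℝ _ (Or.inr ⟨x, hx, rfl⟩)
      · show f (f y) ∈ convexHull ℝ (C ∪ f '' C)
        rw [hff _ (haf y)]
        exact subset_convexHull ℝ _ (Or.inr ⟨y, hy, rfl⟩)
    · intro x hx y hy r s hr hs hrs
      show f (r • x + s • y) ∈ convexHull ℝ (C ∪ f '' C)
      rw [hcomb x y r s hrs]
      exact (convex_convexHull ℝ _) hx hy hr hs hrs
  refine bodies _ (convex_convexHull ℝ _) hcomp hi a u b ⟨hau, fun x hx => ?_⟩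
  refine ⟨(b - ⟪a, x⟫_ℝ) / ⟪a, u⟫_ℝ, ?_, ?_⟩
  · have := hmap hx
    rw [hf] at this ⊢
    exact this
  · have := haf x
    rw [hf] at this
    exact this

/-- **Main theorem.** -/
theorem result : Bodies ∧ Space ∧ Hulls ∧ AllDimensions := ⟨bodies, space, hulls, allDimensions⟩

end Pool.Agent.Results.MP_5e7226_co.SectionIsShadow
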